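import Mathlib

set_option autoImplicit false

namespace Pool.Agent.Results.MP_230f06_co.CubeSeparates

/-- A veto interval: a closed real interval `[l, r]` together with a veto mark `v`,
where `l < v < r`. -/
structure VetoInterval where
  /-- left endpoint -/
  l : ℝ
  /-- veto mark -/
  v : ℝ
  /-- right endpoint -/
  r : ℝ
  lv : l < v
  vr : v < r

/-- The adjacency condition on two veto intervals `A = I(a)`, `B = I(b)`:
`a_v < b_l < a_r < b_v` or `b_v < a_l < b_r < a_v`. -/
def Meets (A B : VetoInterval) : Prop :=
  (A.v < B.l ∧ B.l < A.r ∧ A.r < B.v) ∨ (B.v < A.l ∧ A.l < B.r ∧ B.r < A.v)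

/-- `I` is a veto interval representation of the graph `G`: `a ↦ I(a)` is injective (a bijection
onto a set of veto intervals) and distinct vertices are adjacent iff their veto intervals
satisfy the adjacency condition. -/
def IsRep {V : Type} (G : SimpleGraph V) (I : V → VetoInterval) : Prop :=
  Function.Injective I ∧ ∀ a b : V, a ≠ b → (G.Adj a b ↔ Meets (I a) (I b))

/-- All intervals have the same length. -/
def IsUnit {V : Type} (I : V → VetoInterval) : Prop :=
  ∀ a b : V, (I a).r - (I a).l = (I b).r - (I b).l

/-- No interval properly contains another. -/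
def IsProper {V : Type} (I : V → VetoInterval) : Prop :=
  ∀ a b : V, ¬ (Set.Icc (I a).l (I a).r ⊂ Set.Icc (I b).l (I b).r)

/-- Every veto mark is the midpoint of its interval. -/
def IsMidpoint {V : Type} (I : V → VetoInterval) : Prop :=
  ∀ a : V, (I a).v = ((I a).l + (I a).r) / 2

/-- UVI graphs: graphs with a unit veto interval representation. -/
def IsUVI {V : Type} (G : SimpleGraph V) : Prop :=
  ∃ I : V → VetoInterval, IsRep G I ∧ IsUnit I

/-- MPVI graphs: graphs with a representation that is both midpoint and proper. -/
def IsMPVI {V : Type} (G : SimpleGraph V) : Prop :=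
  ∃ I : V → VetoInterval, IsRep G I ∧ IsMidpoint I ∧ IsProper I

/-! ### The order of the intervals in a midpoint proper representation -/

lemma order_of_proper {V : Type} {G : SimpleGraph V} {I : V → VetoInterval}
    (hrep : IsRep G I) (hm : IsMidpoint I) (hp : IsProper I) {a b : V} (hab : a ≠ b) :
    ((I a).l < (I b).l ∧ (I a).r < (I b).r) ∨ ((I b).l < (I a).l ∧ (I b).r < (I a).r) := by
  have la := (I a).lv
  have ra := (I a).vr
  have lb := (I b).lv
  have rb := (I b).vr
  have h1 := hp a b
  have h2 := hp b a
  have key : ∀ x y : V, (I y).l ≤ (I x).l → (I x).r ≤ (I y).r →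
      ((I y).l < (I x).l ∨ (I x).r < (I y).r) →
      Set.Icc (I x).l (I x).r ⊂ Set.Icc (I y).l (I y).r := by
    intro x y h3 h4 h5
    have lx := (I x).lv
    have rx := (I x).vr
    refine ⟨Set.Icc_subset_Icc h3 h4, ?_⟩
    intro hsub
    rcases h5 with h5 | h5
    · have : (I y).l ∈ Set.Icc (I x).l (I x).r := hsub ⟨le_refl _, by linarith⟩
      exact absurd this.1 (not_le.mpr h5)
    · have : (I y).r ∈ Set.Icc (I x).l (I x).r := hsub ⟨by linarith, le_refl _⟩
      exact absurd this.2 (not_le.mpr h5)
  rcases lt_trichotomy (I a).l (I b).l with h | h | h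
  · left
    refine ⟨h, ?_⟩
    by_contra hc
    exact h2 (key b a h.le (not_lt.mp hc) (Or.inl h))
  · exfalso
    rcases lt_trichotomy (I a).r (I b).r with h' | h' | h'
    · exact h1 (key a b h.ge h'.le (Or.inr h'))
    · apply hab
      apply hrep.1
      have hv : (I a).v = (I b).v := by rw [hm a, hm b, h, h']
      generalize I a = A at *
      generalize I b = B at *
      cases A
      cases B
      simp_all
    · exact h2 (key b a h.le h'.le (Or.inr h'))
  · right
    refine ⟨h, ?_⟩
    by_contra hc
    exact h1 (key a b h.le (not_lt.mp hc) (Or.inl h))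

/-- In a midpoint proper representation, if `a` is to the left of `b`, then adjacency is
`a_v < b_l < a_r < b_v`. -/
lemma adj_iff {V : Type} {G : SimpleGraph V} {I : V → VetoInterval}
    (hrep : IsRep G I) (hm : IsMidpoint I) (hp : IsProper I) {a b : V}
    (hab : (I a).l < (I b).l) :
    (I a).v < (I b).v ∧
    (G.Adj a b ↔ ((I a).v < (I b).l ∧ (I b).l < (I a).r ∧ (I a).r < (I b).v)) := by
  have hne : a ≠ b := by
    rintro rfl
    exact lt_irrefl _ hab
  have h1 : (I a).r < (I b).r := by
    rcases order_of_proper hrep hm hp hne with h | h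
    · exact h.2
    · exact absurd h.1 (not_lt.mpr hab.le)
  have hv : (I a).v < (I b).v := by
    rw [hm a, hm b]
    linarith
  refine ⟨hv, ?_⟩
  rw [hrep.2 a b hne]
  constructor
  · rintro (h | h)
    · exact h
    · exfalso
      have := (I a).lv
      linarith [h.1]
  · intro h
    exact Or.inl h

/-! ### Contiguity checks and an exhaustive search -/

/-- all entries are `false` -/
def c2 : List Bool → Bool
  | [] => true
  | false :: t => c2 t
  | true :: _ => false

/-- a block of `true`s followed by a block of `false`s -/
def c1 : List Bool → Bool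
  | [] => true
  | true :: t => c1 t
  | false :: t => c2 t

/-- the `true`s are contiguous -/
def c0 : List Bool → Bool
  | [] => true
  | false :: t => c0 t
  | true :: t => c1 t

lemma c2_of {α : Type} (f : α → Bool) (l : List α) (h : ∀ x ∈ l, f x = false) :
    c2 (l.map f) = true := by
  induction l with
  | nil => rfl
  | cons a t ih =>
    have ha := h a (by simp)
    simp only [List.map_cons, ha, c2]
    exact ih (fun x hx => h x (by simp [hx]))

lemma c1_of {α : Type} (r : α → α → Prop) (f : α → Bool)
    (hf : ∀ a b c, r a b → r b c → f a = true → f c = true → f b = true)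
    (a : α) (ha : f a = true) (l : List α) (hal : ∀ x ∈ l, r a x) (hl : l.Pairwise r) :
    c1 (l.map f) = true := by
  induction l with
  | nil => rfl
  | cons b t ih =>
    rw [List.pairwise_cons] at hl
    cases hb : f b with
    | true =>
      simp only [List.map_cons, hb, c1]
      exact ih (fun x hx => hal x (by simp [hx])) hl.2
    | false =>
      simp only [List.map_cons, hb, c1]
      apply c2_of
      intro x hx
      by_contra hx'
      have hx'' : f x = true := by simpa using hx'
      have := hf a b x (hal b (by simp)) (hl.1 x hx) ha hx''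
      rw [hb] at this
      exact absurd this (by simp)

lemma c0_of {α : Type} (r : α → α → Prop) (f : α → Bool)
    (hf : ∀ a b c, r a b → r b c → f a = true → f c = true → f b = true)
    (l : List α) (hl : l.Pairwise r) :
    c0 (l.map f) = true := by
  induction l with
  | nil => rfl
  | cons b t ih =>
    rw [List.pairwise_cons] at hl
    cases hb : f b with
    | true =>
      simp only [List.map_cons, hb, c0]
      exact c1_of r f hf b hb t hl.1 hl.2
    | false =>
      simp only [List.map_cons, hb, c0]
      exact ih hl.2

/-- `chkN adj pre R`: for every `p` in `R`, the neighbours of `p` among the elements met before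
`p` (including those of `pre`) are contiguous. -/
def chkN (adj : ℕ → ℕ → Bool) : List ℕ → List ℕ → Bool
  | _, [] => true
  | pre, p :: t => c0 (pre.map (adj p)) && chkN adj (p :: pre) t

/-- The test for a (reversed) initial segment `x :: R` of an ordering. -/
def good (adj : ℕ → ℕ → Bool) : List ℕ → Bool
  | [] => true
  | x :: R => c0 (R.map (adj x)) && chkN adj [] (x :: R)

/-- Exhaustive search: `true` if no good extension of `L` by `k` further elements exists. -/
def dfs (adj : ℕ → ℕ → Bool) (n : ℕ) : ℕ → List ℕ → Bool
  | 0, _ => false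
  | k + 1, L => (List.range n).all fun x =>
      L.elem x || !(good adj (x :: L)) || dfs adj n k (x :: L)

lemma dfs_sound (adj : ℕ → ℕ → Bool) (n : ℕ) :
    ∀ (k : ℕ) (L : List ℕ), dfs adj n k L = true →
      ∀ M : List ℕ, M.length = k → (M ++ L).Nodup → (∀ x ∈ M, x < n) →
        (∀ S : List ℕ, S <:+ (M ++ L) → good adj S = true) → False := by
  intro k
  induction k with
  | zero => intro L h; simp [dfs] at h
  | succ k ih =>
    intro L h M hM hnd hlt hgood
    obtain ⟨M', x, rfl⟩ : ∃ M' x, M = M' ++ [x] := by
      rcases List.eq_nil_or_concat M with h0 | ⟨M', x, h0⟩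
      · simp [h0] at hM
      · exact ⟨M', x, by simpa using h0⟩
    have hM' : M'.length = k := by simpa using hM
    rw [dfs, List.all_eq_true] at h
    have hx := h x (by rw [List.mem_range]; exact hlt x (by simp))
    have heq : M' ++ [x] ++ L = M' ++ (x :: L) := by simp
    rw [heq] at hnd hgood
    have hxL : L.elem x = false := by
      have h2 := (List.nodup_append.mp hnd).2.1
      rw [List.nodup_cons] at h2
      rw [Bool.eq_false_iff]
      intro h3
      exact h2.1 (List.elem_iff.mp h3)
    have hg := hgood (x :: L) (List.suffix_append _ _)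
    rw [hxL, hg] at hx
    simp only [Bool.not_true, Bool.or_self, Bool.false_or] at hx
    exact ih (x :: L) hx M' hM' hnd (fun y hy => hlt y (by simp [hy])) hgood

lemma chkN_of (adj : ℕ → ℕ → Bool) (r : ℕ → ℕ → Prop)
    (hf : ∀ p a b c, r p a → r a b → r b c → adj p a = true → adj p c = true → adj p b = true) :
    ∀ (R pre : List ℕ), (pre.Pairwise r) → (R.Pairwise (fun a b => r b a)) →
      (∀ x ∈ R, ∀ y ∈ pre, r x y) → chkN adj pre R = true := by
  intro R
  induction R with
  | nil => intro pre _ _ _; rfl
  | cons p t ih =>
    intro pre hpre hR hx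
    rw [List.pairwise_cons] at hR
    rw [chkN, Bool.and_eq_true]
    constructor
    · -- restrict to elements to the right of `p`
      have : ∀ l : List ℕ, l.Pairwise r → (∀ y ∈ l, r p y) → c0 (l.map (adj p)) = true := by
        intro l hl hl'
        induction l with
        | nil => rfl
        | cons b s ih2 =>
          rw [List.pairwise_cons] at hl
          cases hb : adj p b with
          | false =>
            simp only [List.map_cons, hb, c0]
            exact ih2 hl.2 (fun y hy => hl' y (by simp [hy]))
          | true =>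
            simp only [List.map_cons, hb, c0]
            have hpb : r p b := hl' b (by simp)
            -- on the tail use the relation `r`
            have : ∀ s' : List ℕ, s'.Pairwise r → (∀ y ∈ s', r b y) →
                c1 (s'.map (adj p)) = true := by
              intro s' hs' hb'
              induction s' with
              | nil => rfl
              | cons d u ih3 =>
                rw [List.pairwise_cons] at hs'
                cases hd : adj p d with
                | true =>
                  simp only [List.map_cons, hd, c1]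
                  exact ih3 hs'.2 (fun y hy => hb' y (by simp [hy]))
                | false =>
                  simp only [List.map_cons, hd, c1]
                  apply c2_of
                  intro y hy
                  by_contra hy'
                  have hy'' : adj p y = true := by simpa using hy'
                  have := hf p b d y hpb (hb' d (by simp)) (hs'.1 y hy) hb hy''
                  rw [hd] at this
                  exact absurd this (by simp)
            exact this s hl.2 hl.1
      exact this pre hpre (fun y hy => hx p (by simp) y hy)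
    · apply ih (p :: pre)
      · rw [List.pairwise_cons]
        exact ⟨fun y hy => hx p (by simp) y hy, hpre⟩
      · exact hR.2
      · intro x hxt y hy
        rcases List.mem_cons.mp hy with rfl | hy
        · exact hR.1 x hxt
        · exact hx x (by simp [hxt]) y hy

/-- Adjacency in the 3-cube: the binary expansions of the two labels (numbers below 8) differ in
exactly one place. -/
def cubeAdj (a b : ℕ) : Bool :=
  let x := Nat.xor a b
  Nat.beq x 1 || Nat.beq x 2 || Nat.beq x 4

set_option maxRecDepth 100000 in
lemma dfs_cube : dfs cubeAdj 8 8 [] = true := by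
  decide +kernel

lemma cubeAdj_symm (a b : ℕ) (h : cubeAdj a b = true) : cubeAdj b a = true := by
  have : Nat.xor b a = Nat.xor a b := Nat.xor_comm b a
  unfold cubeAdj at *
  rw [this]
  exact h

lemma cubeAdj_irrefl (a : ℕ) : ¬ (cubeAdj a a = true) := by
  have : Nat.xor a a = 0 := Nat.xor_self a
  unfold cubeAdj
  rw [this]
  decide

/-- The 3-cube graph on `Fin 8`. -/
def cube : SimpleGraph (Fin 8) where
  Adj a b := cubeAdj a.val b.val = true
  symm := ⟨fun a b h => cubeAdj_symm a.val b.val h⟩
  loopless := ⟨fun a h => cubeAdj_irrefl a.val h⟩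

lemma cube_not_MPVI : ¬ IsMPVI cube := by
  rintro ⟨I, hrep, hm, hp⟩
  set pos : Fin 8 → ℝ := fun a => (I a).l with hpos
  have hinj : ∀ a b : Fin 8, a ≠ b → pos a ≠ pos b := by
    intro a b hab h
    rcases order_of_proper hrep hm hp hab with h1 | h1
    · exact absurd h h1.1.ne
    · exact absurd h h1.1.ne'
  let rN : ℕ → ℕ → Prop := fun a b => ∃ (ha : a < 8) (hb : b < 8), pos ⟨a, ha⟩ < pos ⟨b, hb⟩
  -- contiguity of the right neighbourhoods
  have hR : ∀ p a b c : ℕ, rN p a → rN a b → rN b c → cubeAdj p a = true → cubeAdj p c = true →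
      cubeAdj p b = true := by
    rintro p a b c ⟨hp8, ha8, h1⟩ ⟨_, hb8, h2⟩ ⟨_, hc8, h3⟩ hpa hpc
    have e1 := adj_iff hrep hm hp (a := ⟨p, hp8⟩) (b := ⟨a, ha8⟩) h1
    have e2 := adj_iff hrep hm hp (a := ⟨p, hp8⟩) (b := ⟨b, hb8⟩) (h1.trans h2)
    have e3 := adj_iff hrep hm hp (a := ⟨p, hp8⟩) (b := ⟨c, hc8⟩) ((h1.trans h2).trans h3)
    have e4 := adj_iff hrep hm hp (a := ⟨a, ha8⟩) (b := ⟨b, hb8⟩) h2
    have f1 := e1.2.mp hpa
    have f3 := e3.2.mp hpc
    apply e2.2.mpr
    simp only [hpos] at h1 h2 h3
    refine ⟨?_, ?_, ?_⟩
    · linarith [f1.1]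
    · linarith [f3.2.1]
    · linarith [f1.2.2, e4.1]
  -- contiguity of the left neighbourhoods
  have hL : ∀ a b c x : ℕ, rN a b → rN b c → rN c x → cubeAdj x a = true → cubeAdj x c = true →
      cubeAdj x b = true := by
    rintro a b c x ⟨ha8, hb8, h1⟩ ⟨_, hc8, h2⟩ ⟨_, hx8, h3⟩ hax hcx
    have e1 := adj_iff hrep hm hp (a := ⟨a, ha8⟩) (b := ⟨x, hx8⟩) ((h1.trans h2).trans h3)
    have e2 := adj_iff hrep hm hp (a := ⟨b, hb8⟩) (b := ⟨x, hx8⟩) (h2.trans h3)
    have e3 := adj_iff hrep hm hp (a := ⟨c, hc8⟩) (b := ⟨x, hx8⟩) h3
    have e4 := adj_iff hrep hm hp (a := ⟨b, hb8⟩) (b := ⟨c, hc8⟩) h2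
    have hne : (⟨a, ha8⟩ : Fin 8) ≠ ⟨b, hb8⟩ := by
      intro h
      rw [h] at h1
      exact lt_irrefl _ h1
    have hne2 : (⟨b, hb8⟩ : Fin 8) ≠ ⟨c, hc8⟩ := by
      intro h
      rw [h] at h2
      exact lt_irrefl _ h2
    have g1 : (I ⟨a, ha8⟩).r < (I ⟨b, hb8⟩).r := by
      rcases order_of_proper hrep hm hp hne with h | h
      · exact h.2
      · exact absurd h.1 (not_lt.mpr h1.le)
    have g2 : (I ⟨b, hb8⟩).r < (I ⟨c, hc8⟩).r := by
      rcases order_of_proper hrep hm hp hne2 with h | h
      · exact h.2
      · exact absurd h.1 (not_lt.mpr h2.le)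
    have f1 := e1.2.mp (cubeAdj_symm _ _ hax)
    have f3 := e3.2.mp (cubeAdj_symm _ _ hcx)
    apply cubeAdj_symm
    apply e2.2.mpr
    simp only [hpos] at h1 h2 h3
    refine ⟨?_, ?_, ?_⟩
    · linarith [f3.1, e4.1]
    · linarith [f1.2.1]
    · linarith [f3.2.2]
  -- the decreasing list of all vertices
  let r : Fin 8 → Fin 8 → Prop := fun a b => pos b ≤ pos a
  have : DecidableRel r := Classical.decRel _
  have : Std.Total r := ⟨fun a b => le_total _ _⟩
  have : IsTrans (Fin 8) r := ⟨fun a b c h1 h2 => le_trans h2 h1⟩
  have hperm : ((List.finRange 8).insertionSort r).Perm (List.finRange 8) :=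
    List.perm_insertionSort r _
  have hsort := List.pairwise_insertionSort r (List.finRange 8)
  set T := (List.finRange 8).insertionSort r with hT
  have hTnd : T.Nodup := hperm.nodup_iff.mpr (List.nodup_finRange 8)
  have hTlen : T.length = 8 := by rw [hperm.length_eq]; simp
  have hTstrict : T.Pairwise (fun a b => pos b < pos a) := by
    have := hsort.and hTnd
    refine this.imp ?_
    intro a b h
    exact lt_of_le_of_ne h.1 (hinj b a (Ne.symm h.2))
  set M : List ℕ := T.map Fin.val with hM
  have hMnd : M.Nodup := by
    rw [hM]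
    exact hTnd.map Fin.val_injective
  have hMlen : M.length = 8 := by rw [hM, List.length_map, hTlen]
  have hMlt : ∀ x ∈ M, x < 8 := by
    intro x hx
    rw [hM, List.mem_map] at hx
    obtain ⟨y, _, rfl⟩ := hx
    exact y.2
  have hMpw : M.Pairwise (fun a b => rN b a) := by
    rw [hM, List.pairwise_map]
    refine hTstrict.imp ?_
    intro a b h
    exact ⟨b.2, a.2, h⟩
  refine dfs_sound cubeAdj 8 8 [] dfs_cube M hMlen (by simpa using hMnd) hMlt ?_
  intro S hS
  rw [List.append_nil] at hS
  have hSpw : S.Pairwise (fun a b => rN b a) := hMpw.sublist hS.sublist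
  cases S with
  | nil => rfl
  | cons x R =>
    rw [good, Bool.and_eq_true]
    rw [List.pairwise_cons] at hSpw
    constructor
    · apply c0_of (fun a b => rN b a ∧ rN a x ∧ rN b x)
      · rintro a b c ⟨h1, h2, h3⟩ ⟨h4, h5, h6⟩ ha hc
        exact hL c b a x h4 h1 h2 hc ha
      · have h1 : R.Pairwise (fun a b => rN a x ∧ rN b x) := by
          apply List.pairwise_of_forall_mem_list
          intro a ha b hb
          exact ⟨hSpw.1 a ha, hSpw.1 b hb⟩
        exact hSpw.2.and h1
    · apply chkN_of cubeAdj rN hR (x :: R) []
      · exact List.Pairwise.nil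
      · rw [List.pairwise_cons]
        exact hSpw
      · intro _ _ y hy
        simp at hy

/-- left endpoints (scaled) of a unit representation of the cube -/
def cubeL : Fin 8 → ℝ := ![13, 10, 9, 15, 7, 3, 2, 8]

/-- marks of a unit representation of the cube -/
def cubeV : Fin 8 → ℝ := ![20, 12, 11, 21, 12, 6, 4, 13]

lemma cube_UVI : IsUVI cube := by
  have hlv : ∀ a, cubeL a < cubeV a := by
    intro a
    fin_cases a <;> simp [cubeL, cubeV] <;> norm_num
  have hvr : ∀ a, cubeV a < cubeL a + 8 := by
    intro a
    fin_cases a <;> simp [cubeL, cubeV] <;> norm_num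
  refine ⟨fun a => ⟨cubeL a, cubeV a, cubeL a + 8, hlv a, hvr a⟩, ⟨?_, ?_⟩, ?_⟩
  · intro a b hab
    have h : cubeL a = cubeL b := by
      have := congrArg VetoInterval.l hab
      exact this
    revert h
    fin_cases a <;> fin_cases b <;> simp [cubeL] <;> norm_num
  · intro a b hab
    have h1 : cube.Adj a b ↔ cubeAdj a.val b.val = true := Iff.rfl
    rw [h1]
    unfold Meets
    fin_cases a <;> fin_cases b <;> first
      | exact absurd rfl hab
      | (simp only [cubeL, cubeV]
         norm_num [cubeAdj]
         done)
      | (simp only [cubeL, cubeV]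
         norm_num [cubeAdj]
         decide)
  · intro a b
    simp

/-- There is a UVI graph (the 3-cube, with 8 vertices) that is not an MPVI graph. -/
theorem result : ∃ G : SimpleGraph (Fin 8), IsUVI G ∧ ¬ IsMPVI G :=
  ⟨cube, cube_UVI, cube_not_MPVI⟩

end Pool.Agent.Results.MP_230f06_co.CubeSeparates
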